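import Pool.Agent.NPG.StmtsD

/-!
# Squad NPY (MP_005a41_gt), row CTZ: cosets with more points of `B` than of `A`
-/

set_option autoImplicit false

open MeasureTheory Set Topology

namespace Pool.Agent.NPY.H4

open Pool.Agent.LSG Pool.Agent.NPY

/-- the number of the `h` with `x + h ∈ D` -/
noncomputable def gg (F : Finset K) (D : Set K) (x : K) : ENNReal :=
  ∑ h ∈ F, ((fun y : K => h + y) ⁻¹' D).indicator (fun _ => (1 : ENNReal)) x

theorem tr_meas (h : K) : Measurable (fun y : K => h + y) :=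
  (continuous_const.add continuous_id).measurable

theorem gg_meas (F : Finset K) {D : Set K} (hD : MeasurableSet D) : Measurable (gg F D) := by
  unfold gg
  refine Finset.measurable_sum _ fun h _ => ?_
  exact measurable_const.indicator (tr_meas h hD)

theorem gg_int (h1 : MukStmt) (F : Finset K) {D : Set K} (hD : MeasurableSet D) :
    ∫⁻ x, gg F D x ∂mu = F.card * mu D := by
  unfold gg
  rw [lintegral_finsetSum _ (fun h _ => measurable_const.indicator (tr_meas h hD))]
  have h2 : ∀ h ∈ F, ∫⁻ x, ((fun y : K => h + y) ⁻¹' D).indicator (fun _ => (1 : ENNReal)) x ∂mu =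
      mu D := by
    intro h _
    rw [lintegral_indicator_const (tr_meas h hD), one_mul]
    exact h1.2.1 h D
  rw [Finset.sum_congr rfl h2, Finset.sum_const, nsmul_eq_mul]

theorem gg_card {H : AddSubgroup K} (hH : (H : Set K).Finite) (D : Set K) (x : K) :
    gg hH.toFinset D x = (Set.ncard {h : K | h ∈ H ∧ x + h ∈ D} : ENNReal) := by
  classical
  have h1 : {h : K | h ∈ H ∧ x + h ∈ D} = (hH.toFinset.filter (fun h => x + h ∈ D) : Finset K) := by
    ext h
    simp
  rw [h1, Set.ncard_coe_finset, Finset.card_filter]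
  unfold gg
  push_cast
  refine Finset.sum_congr rfl fun h _ => ?_
  by_cases hx : x + h ∈ D
  · rw [if_pos hx, Set.indicator_of_mem]
    show h + x ∈ D
    rwa [add_comm]
  · rw [if_neg hx, Set.indicator_of_notMem]
    show ¬ (h + x ∈ D)
    rwa [add_comm]

/-- CTZ -/
theorem ctz (h1 : MukStmt) : CtzStmt := by
  classical
  intro H hH k A B hA hB hlt
  have hprob := h1.1
  set F : Finset K := hH.toFinset with hF
  set Z : Set K := {x | ∑ i, gg F (A i) x < ∑ i, gg F (B i) x} with hZ
  have mA : Measurable (fun x => ∑ i, gg F (A i) x) :=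
    Finset.measurable_sum _ fun i _ => gg_meas F (hA i)
  have mB : Measurable (fun x => ∑ i, gg F (B i) x) :=
    Finset.measurable_sum _ fun i _ => gg_meas F (hB i)
  have hZm : MeasurableSet Z := measurableSet_lt mA mB
  have iA : ∫⁻ x, ∑ i, gg F (A i) x ∂mu = F.card * ∑ i, mu (A i) := by
    rw [lintegral_finsetSum _ (fun i _ => gg_meas F (hA i)), Finset.mul_sum]
    exact Finset.sum_congr rfl fun i _ => gg_int h1 F (hA i)
  have iB : ∫⁻ x, ∑ i, gg F (B i) x ∂mu = F.card * ∑ i, mu (B i) := by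
    rw [lintegral_finsetSum _ (fun i _ => gg_meas F (hB i)), Finset.mul_sum]
    exact Finset.sum_congr rfl fun i _ => gg_int h1 F (hB i)
  have hF0 : (F.card : ENNReal) ≠ 0 := by
    have : 0 ∈ F := by
      rw [hF, Set.Finite.mem_toFinset]
      exact H.zero_mem
    have h2 : F.card ≠ 0 := Finset.card_ne_zero_of_mem this
    exact_mod_cast h2
  have hZ0 : 0 < mu Z := by
    rw [pos_iff_ne_zero]
    intro h0
    have hae : ∀ᵐ x ∂mu, ∑ i, gg F (B i) x ≤ ∑ i, gg F (A i) x := by
      rw [ae_iff]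
      have : {x | ¬ ∑ i, gg F (B i) x ≤ ∑ i, gg F (A i) x} = Z := by
        ext x
        simp [hZ]
      rw [this]
      exact h0
    have h3 := lintegral_mono_ae hae
    rw [iA, iB] at h3
    have h4 : (F.card : ENNReal) * ∑ i, mu (A i) < F.card * ∑ i, mu (B i) :=
      (ENNReal.mul_lt_mul_iff_right hF0 (ENNReal.natCast_ne_top _)).2 hlt
    exact absurd h3 (not_le.2 h4)
  have hZc : ∀ x ∈ Z, ∑ i, Set.ncard {h : K | h ∈ H ∧ x + h ∈ A i}
      < ∑ i, Set.ncard {h : K | h ∈ H ∧ x + h ∈ B i} := by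
    intro x hx
    have h5 : ∑ i, gg F (A i) x < ∑ i, gg F (B i) x := hx
    simp only [hF, gg_card hH] at h5
    exact_mod_cast h5
  exact ⟨Z, hZm, hZ0, hZc⟩

end Pool.Agent.NPY.H4
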